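import Pool.Agent.Helper49.QU.Defs
import Pool.Agent.Helper83.Rel.Defs

/-!
# T-REL for quadric bundles: definitions over a base ring `A` (the homogeneous coordinate ring of
the base `T`)
-/

set_option autoImplicit false

namespace Pool.Agent.Helper83.RelQ

open Matrix Pool.Agent.Helper49.QU Pool.Agent.Helper69.CB

variable {n r : ℕ} (N : Fin r → ℕ)

variable (n) in
/-- the old polynomials in the new ring -/
noncomputable def incR (A : Type) [CommRing A] :
    MvPolynomial (Fin n) A →ₐ[A] MvPolynomial (Fin (vn N + n)) A :=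
  MvPolynomial.rename (tix N)

variable (n) in
/-- the generic vectors -/
noncomputable def gvR (A : Type) [CommRing A] (i : Fin r) :
    Fin 3 → Fin (N i) → MvPolynomial (Fin (vn N + n)) A :=
  fun c j => MvPolynomial.X (vix N ⟨i, c, j⟩)

variable {A : Type} [CommRing A]

/-- the matrices in the new ring -/
noncomputable def incBR (B : ∀ i : Fin r, Matrix (Fin (N i)) (Fin (N i)) (MvPolynomial (Fin n) A))
    (i : Fin r) : Matrix (Fin (N i)) (Fin (N i)) (MvPolynomial (Fin (vn N + n)) A) :=
  (B i).map (incR n N A)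

/-- the symbols -/
noncomputable def aQR (B : ∀ i : Fin r, Matrix (Fin (N i)) (Fin (N i)) (MvPolynomial (Fin n) A))
    (i : Fin r) : MvPolynomial (Fin (vn N + n)) A := qa (incBR N B i) (gvR n N A i)

noncomputable def bQR (B : ∀ i : Fin r, Matrix (Fin (N i)) (Fin (N i)) (MvPolynomial (Fin n) A))
    (i : Fin r) : MvPolynomial (Fin (vn N + n)) A := qb (incBR N B i) (gvR n N A i)

section Bundle

variable {N}

/-- the coordinate ring of the fibre product of the quadric bundles (affine cones) over
`δ ≠ 0` -/
abbrev QRingR (B : ∀ i : Fin r, Matrix (Fin (N i)) (Fin (N i)) (MvPolynomial (Fin n) A))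
    (δ : MvPolynomial (Fin n) A) : Type :=
  MvPolynomial (Σ i : Fin r, Fin (N i)) (Localization.Away δ) ⧸ Ideal.span
    (Set.range fun i : Fin r => ∑ j, ∑ k, MvPolynomial.C (algebraMap _ (Localization.Away δ)
      (B i j k)) * MvPolynomial.X (⟨i, j⟩ : Σ i : Fin r, Fin (N i)) *
        MvPolynomial.X (⟨i, k⟩ : Σ i : Fin r, Fin (N i)))

/-- the coordinate ring of the product of the conics -/
abbrev CRingR {m r : ℕ} (a b : Fin r → MvPolynomial (Fin m) A) : Type :=
  MvPolynomial (Fin r × Fin 2) (MvPolynomial (Fin m) A) ⧸ Ideal.span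
    (Set.range fun i : Fin r => (MvPolynomial.X (i, 0) ^ 2 -
      MvPolynomial.C (a i) * MvPolynomial.X (i, 1) ^ 2 - MvPolynomial.C (b i) :
        MvPolynomial (Fin r × Fin 2) (MvPolynomial (Fin m) A)))

end Bundle

/-- the coefficients of `f` have no common zero on `T`: a point of the cone over the algebraic
closure at which all of them vanish is the vertex -/
def GeomNoZero (K : Type) [Field K] {R : Type} [CommRing R] [Algebra K R] {M : ℕ} (τ : Fin M → R)
    {n : ℕ} (f : MvPolynomial (Fin n) R) : Prop :=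
  ∀ ψ : R →ₐ[K] AlgebraicClosure K,
    MvPolynomial.map (ψ : R →+* AlgebraicClosure K) f = 0 → ∀ l, ψ (τ l) = 0

end Pool.Agent.Helper83.RelQ
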