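import Pool.Agent.Helper83.Rel.Final
import Pool.Agent.Helper60.RelQ.N1
import Pool.Agent.Helper8.RelQ.Factor
import Pool.Agent.Helper28.RelQ.Q4
import Pool.Agent.Helper33.RelQ.Dom
import Pool.Agent.Helper49.RelQ.Map
import Pool.Agent.Helper17.RelQ.Geom
import Pool.Agent.Helper34.Rel.Cone

/-!
# T-REL for quadric bundles over `T × A^n`, final statements
-/

set_option autoImplicit false

namespace Pool.Agent.Helper83.RelQ

open NumberField Pool.Agent.Helper4.CB MvPolynomial Pool.Agent.Helper65.CB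
open Pool.Agent.Helper69.CB Pool.Agent.Helper83.Rel Pool.Agent.Helper49.QU
open AlgebraicGeometry CategoryTheory Pool.Agent.Helper15

/-- **T-REL for quadric bundles**, abstract form of the base -/
theorem t_relq_abs {K : Type} [Field K] [NumberField K] {R : Type} [CommRing R] [IsDomain R]
    [Algebra K R] {M : ℕ} (τ : Fin M → R) (hgen : Algebra.adjoin K (Set.range τ) = ⊤)
    (hcone : ∀ φ : R →ₐ[K] K, ∃ ψ : R →ₐ[K] Polynomial K, ∀ l,
      ψ (τ l) = Polynomial.X * Polynomial.C (φ (τ l)))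
    (hdense : ∀ f : R, f ≠ 0 → ∃ φ : R →ₐ[K] K, φ f ≠ 0) (hτ : ∃ l, τ l ≠ 0)
    {n r : ℕ} {N : Fin r → ℕ}
    (B : ∀ i : Fin r, Matrix (Fin (N i)) (Fin (N i)) (MvPolynomial (Fin n) R))
    (hB : ∀ i, (B i).IsSymm)
    (hr : ∀ i, ∀ ψ : R →ₐ[K] AlgebraicClosure K,
      (∀ f g : Fin 3 → Fin (N i),
        (((B i).map (MvPolynomial.map (ψ : R →+* AlgebraicClosure K))).submatrix f g).det = 0) →
      ∀ l, ψ (τ l) = 0)
    (h : ∀ i, ∀ P : MvPolynomial (Fin n) (FractionRing R), Irreducible P →
      Minors ((B i).map (MvPolynomial.map (algebraMap R (FractionRing R)))) P → TriDeg 3 P) :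
    ∃ δ : MvPolynomial (Fin n) R, δ ≠ 0 ∧ ∀ (X : Scheme.{0}) (s : X ⟶ Spec (CommRingCat.of K)),
      DominatedOver K X (Spec (CommRingCat.of (QRingR B δ))) s
        (Spec.map (CommRingCat.ofHom (algebraMap K (QRingR B δ)))) →
      PotentiallyDense K X s := by
  classical
  have hchR : CharZero R := charZero_of_injective_algebraMap (algebraMap K R).injective
  have hchL : CharZero (FractionRing R) :=
    charZero_of_injective_algebraMap (IsFractionRing.injective R (FractionRing R))
  -- some minor is nonzero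
  have hm : ∀ i, ∃ f g : Fin 3 → Fin (N i), ((B i).submatrix f g).det ≠ 0 := by
    intro i
    obtain ⟨l, hl⟩ := hτ
    obtain ⟨φ, hφ⟩ := hdense _ hl
    by_contra hcon
    push Not at hcon
    let ψ : R →ₐ[K] AlgebraicClosure K := (Algebra.ofId K (AlgebraicClosure K)).comp φ
    have h1 := hr i ψ (fun f g => by
      have h2 := congrArg (MvPolynomial.map (σ := Fin n) (ψ : R →+* AlgebraicClosure K)) (hcon f g)
      rw [RingHom.map_det, map_zero] at h2
      exact h2) l
    have h3 : ψ (τ l) = algebraMap K (AlgebraicClosure K) (φ (τ l)) := rfl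
    rw [h3, map_eq_zero_iff _ (algebraMap K (AlgebraicClosure K)).injective] at h1
    exact hφ h1
  obtain ⟨v, hv⟩ := Classical.axiom_of_choice fun i =>
    Pool.Agent.Helper28.RelQ.exists_constR (K := K) (B i) (hB i) (hm i)
  obtain ⟨δ, hδ⟩ : ∃ δ : MvPolynomial (Fin n) R, δ =
      ∏ i, D1 (B i) (fun c j => MvPolynomial.C (v i c j)) *
      D2 (B i) (fun c j => MvPolynomial.C (v i c j)) := ⟨_, rfl⟩
  have hδ0 : δ ≠ 0 := by
    rw [hδ]
    exact Finset.prod_ne_zero_iff.2 fun i _ => hv i
  refine ⟨δ, hδ0, fun X s hX => PotentiallyDense.of_dominated hX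
    (PotentiallyDense.of_dominated (Pool.Agent.Helper33.RelQ.dominatedR B hB v δ hδ hδ0) ?_)⟩
  refine t_rel_abs τ hgen hcone hdense hτ (aQR N B) (bQR N B) (fun i => ?_) (fun i => ?_) ?_
  · exact Pool.Agent.Helper60.RelQ.noZero_of_geom τ hgen _
      (Pool.Agent.Helper17.RelQ.geomNoZero_sym τ B hB i (hr i)).1
  · exact Pool.Agent.Helper60.RelQ.noZero_of_geom τ hgen _
      (Pool.Agent.Helper17.RelQ.geomNoZero_sym τ B hB i (hr i)).2
  · intro i P hP hd
    have h1 := Pool.Agent.Helper49.RelQ.map_aQR_bQR (algebraMap R (FractionRing R)) B i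
    have h2 := Pool.Agent.Helper49.RelQ.aQR_eq
      (fun i => (B i).map (MvPolynomial.map (algebraMap R (FractionRing R)))) i
    rw [map_mul, h1.1, h1.2, h2.1, h2.2] at hd
    refine Pool.Agent.Helper8.RelQ.factor_tri 3 (by norm_num) _ (fun i => (hB i).map _) i ?_
      (h i) P hP hd
    obtain ⟨f, g, hfg⟩ := hm i
    refine ⟨f, g, fun h0 => hfg ?_⟩
    have h3 := RingHom.map_det (MvPolynomial.map (σ := Fin n) (algebraMap R (FractionRing R)))
      ((B i).submatrix f g)
    have h4 : MvPolynomial.map (algebraMap R (FractionRing R)) ((B i).submatrix f g).det = 0 := by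
      rw [h3]
      exact h0
    exact MvPolynomial.map_injective _ (IsFractionRing.injective R (FractionRing R))
      (by rw [h4, map_zero])

end Pool.Agent.Helper83.RelQ
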