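import Pool.Agent.Helper83.RelQ.Defs

/-!
# T-REL for quadric bundles: frames (do not import)
-/

set_option autoImplicit false

namespace Pool.Agent.Helper83.RelQ

open Matrix Pool.Agent.Helper49.QU Pool.Agent.Helper69.CB Pool.Agent.Helper83.Rel
open Pool.Agent.Helper65.CB AlgebraicGeometry CategoryTheory

variable {n r : ℕ} {N : Fin r → ℕ}

/-- **N1.** Nullstellensatz: `R` is a finitely generated `K`-algebra, Jacobson; every maximal ideal
is the kernel of a point over the algebraic closure -/
theorem noZero_of_geom {K : Type} [Field K] {R : Type} [CommRing R] [Algebra K R] {M : ℕ}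
    (τ : Fin M → R) (hgen : Algebra.adjoin K (Set.range τ) = ⊤) {n : ℕ}
    (f : MvPolynomial (Fin n) R) (h : GeomNoZero K τ f) :
    NoZero τ ({f} : Set (MvPolynomial (Fin n) R)) := by
  sorry

/-- **Q1.** change of the base ring -/
theorem map_aQR_bQR {A A' : Type} [CommRing A] [CommRing A'] (φ : A →+* A')
    (B : ∀ i : Fin r, Matrix (Fin (N i)) (Fin (N i)) (MvPolynomial (Fin n) A)) (i : Fin r) :
    MvPolynomial.map φ (aQR N B i) = aQR N (fun i => (B i).map (MvPolynomial.map φ)) i ∧
    MvPolynomial.map φ (bQR N B i) = bQR N (fun i => (B i).map (MvPolynomial.map φ)) i := by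
  sorry

/-- **Q2.** over a field these are the symbols of T-QUAD (`rfl`?) -/
theorem aQR_eq {k : Type} [Field k]
    (B : ∀ i : Fin r, Matrix (Fin (N i)) (Fin (N i)) (MvPolynomial (Fin n) k)) (i : Fin r) :
    aQR N B i = aQ N B i ∧ bQR N B i = bQ N B i := by
  sorry

/-- **Q3.** the irreducible factors of the symbol over a field, without split fibres: `minors_of_dvd`
for the factors without new variables, `degreeOf_D` for the others -/
theorem factor_tri {k : Type} [Field k] [CharZero k] (dm : ℕ) (hdm : 2 ≤ dm)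
    (B : ∀ i : Fin r, Matrix (Fin (N i)) (Fin (N i)) (MvPolynomial (Fin n) k))
    (hB : ∀ i, (B i).IsSymm) (i : Fin r)
    (hr : ∃ f g : Fin 3 → Fin (N i), ((B i).submatrix f g).det ≠ 0)
    (h : ∀ P : MvPolynomial (Fin n) k, Irreducible P → Minors (B i) P → TriDeg dm P)
    (P : MvPolynomial (Fin (vn N + n)) k) (hP : Irreducible P)
    (hd : P ∣ aQ N B i * bQ N B i) : TriDeg dm P := by
  sorry

/-- **Q4.** two constant vectors (`K` infinite; over `L = Frac A`, apply `exists_const` and clear
denominators of the vectors, or specialise) -/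
theorem exists_constR {K : Type} [Field K] [CharZero K] {A : Type} [CommRing A] [IsDomain A]
    [Algebra K A] {M : ℕ} (B : Matrix (Fin M) (Fin M) (MvPolynomial (Fin n) A))
    (hB : B.IsSymm) (h : ∃ f g : Fin 3 → Fin M, (B.submatrix f g).det ≠ 0) :
    ∃ v : Fin 3 → Fin M → A, D1 B (fun c j => MvPolynomial.C (v c j)) *
      D2 B (fun c j => MvPolynomial.C (v c j)) ≠ 0 := by
  sorry

/-- **Q5.** dominance over the base ring `A` (helper33's `dominated_core` with
`MvPolynomial (Fin n) A` and `MvPolynomial (Fin (vn N + n)) A`) -/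
theorem dominatedR {K : Type} [Field K] {A : Type} [CommRing A] [IsDomain A] [Algebra K A]
    (B : ∀ i : Fin r, Matrix (Fin (N i)) (Fin (N i)) (MvPolynomial (Fin n) A))
    (hB : ∀ i, (B i).IsSymm) (v : ∀ i : Fin r, Fin 3 → Fin (N i) → A)
    (δ : MvPolynomial (Fin n) A)
    (hδ : δ = ∏ i, D1 (B i) (fun c j => MvPolynomial.C (v i c j)) *
      D2 (B i) (fun c j => MvPolynomial.C (v i c j))) (hδ0 : δ ≠ 0) :
    DominatedOver K (Spec (CommRingCat.of (QRingR B δ)))
      (Spec (CommRingCat.of (CRingR (aQR N B) (bQR N B))))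
      (Spec.map (CommRingCat.ofHom (algebraMap K (QRingR B δ))))
      (Spec.map (CommRingCat.ofHom (algebraMap K (CRingR (aQR N B) (bQR N B))))) := by
  sorry

/-- **D1.** density of the zeros of a homogeneous ideal: homogeneous test polynomials suffice -/
theorem dense_of_homogeneous {K : Type} [Field K] [CharZero K] {M : ℕ}
    (I : Ideal (MvPolynomial (Fin M) K))
    (hI : ∀ f ∈ I, ∀ d : ℕ, MvPolynomial.homogeneousComponent d f ∈ I)
    (hd : ∀ (d : ℕ) (g : MvPolynomial (Fin M) K), g.IsHomogeneous d → g ∉ I →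
      ∃ t : Fin M → K, (∀ f ∈ I, MvPolynomial.eval t f = 0) ∧ MvPolynomial.eval t g ≠ 0)
    (g : MvPolynomial (Fin M) K) (hg : g ∉ I) :
    ∃ t : Fin M → K, (∀ f ∈ I, MvPolynomial.eval t f = 0) ∧ MvPolynomial.eval t g ≠ 0 := by
  sorry

end Pool.Agent.Helper83.RelQ
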